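import Pool.Agent.Y279.St.VD4

/-! Stacking facets neither creates nor destroys vertex-decomposability. -/

set_option autoImplicit false

namespace Pool.Agent.Results.MP_1611d4_co.StackingIff

open Finset Pool.Agent.H933R3 Pool.Agent.Y279.St

/-- `K` is a triangulated `d`-sphere: its geometric realization is homeomorphic to the unit sphere
of the Euclidean space of dimension `d + 1`. -/
def IsSphere (d : ℕ) {n : ℕ} (K : Finset (Finset (Fin n))) : Prop :=
  Nonempty (realization K ≃ₜ Metric.sphere (0 : EuclideanSpace ℝ (Fin (d + 1))) 1)

/-- (1) Let `K` be a finite simplicial complex different from `{∅}`. The complex obtained from `K`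
by stacking all facets is vertex-decomposable if and only if `K` is vertex-decomposable.
(2) There is no non-shellable triangulated sphere, of any dimension, such that stacking all its
facets gives a vertex-decomposable complex.
(3) The same equivalence for any complex `K'` obtained from a relabelled copy of `K` by finitely
many stackings of nonempty facets, and (4) for stacking the facets in any set `T` of nonempty facets.
(5) If `K'` is obtained from a relabelled copy of `K` by finitely many steps, each of which replaces
a facet of the current complex by a filling of its boundary, and `K'` is vertex-decomposable, then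
`K` is vertex-decomposable, hence shellable. -/
theorem result :
    (∀ (V : Type) [DecidableEq V] (K : Finset (Finset V)), IsCx K → K ≠ {∅} →
      (VertexDecomposable (stackAll K) ↔ VertexDecomposable K)) ∧
    (¬ ∃ (d n : ℕ) (S : Finset (Finset (Fin n))), IsCx S ∧ IsSphere d S ∧ ¬ Shellable S ∧
      VertexDecomposable (stackAll S)) ∧
    (∀ (V U : Type) [DecidableEq V] [DecidableEq U] (f : V → U), Function.Injective f →
      ∀ (K : Finset (Finset V)) (K' : Finset (Finset U)), IsCx K →
        Stackings (K.image (fun G => G.image f)) K' →
          (VertexDecomposable K' ↔ VertexDecomposable K)) ∧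
    (∀ (V : Type) [DecidableEq V] (K T : Finset (Finset V)), IsCx K →
      (∀ F ∈ T, IsFacet K F ∧ F.Nonempty) →
        (VertexDecomposable (stackSet K T) ↔ VertexDecomposable K)) ∧
    (∀ (V U : Type) [DecidableEq V] [DecidableEq U] (f : V → U), Function.Injective f →
      ∀ (K : Finset (Finset V)) (K' : Finset (Finset U)), IsCx K →
        Refines (K.image (fun G => G.image f)) K' → VertexDecomposable K' →
          VertexDecomposable K ∧ Shellable K) := by
  refine ⟨?_, ?_, ?_, ?_, ?_⟩
  · intro V _ K hK hne
    exact vd_stackAll_iff hK hne
  · rintro ⟨d, n, S, hS, -, hn, hv⟩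
    exact hn (shellable_of_stackAll hS hv)
  · intro V U _ _ f hf K K' hK hst
    exact (vd_stackings (cx_im hf hK) hst).trans (vd_im_iff hf)
  · intro V _ K T hK hT
    exact vd_stackSet_iff hK hT
  · intro V U _ _ f hf K K' hK hst h
    have h1 := (vd_im_iff hf).1 (vd_of_refines (cx_im hf hK) hst h)
    exact ⟨h1, shellable_of_vd hK h1⟩

end Pool.Agent.Results.MP_1611d4_co.StackingIff
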